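import Pool.Agent.H49EC.Proof

/-!
# Few automorphisms of `κ`-existentially closed groups

For every regular cardinal `κ` and every cardinal `μ ≥ κ` there is a `κ`-existentially closed
group `G` with `|G| = 2 ^ μ` and `|Aut(G)| = 2 ^ μ = |G| < 2 ^ |G|`.  The definitions are in
`Pool.Agent.H49EC.Defs` and the proof, with an outline, is in `Pool.Agent.H49EC.Proof`.
-/

set_option autoImplicit false

open Cardinal

universe u

namespace Pool.Agent.Results.MP_cb6149_al.SmallAut

open Pool.Agent.H49EC

/-- **Main theorem.** For every regular cardinal `κ` and every cardinal `μ ≥ κ` there is a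
`κ`-existentially closed group `G` of cardinality `2 ^ μ > κ` which has exactly
`2 ^ μ = |G| < 2 ^ |G|` automorphisms. -/
theorem result (κ : Cardinal.{u}) (hκ : κ.IsRegular) (μ : Cardinal.{u}) (hμ : κ ≤ μ) :
    ∃ (G : Type u) (_ : Group G), IsExistentiallyClosed κ G ∧
      #G = 2 ^ μ ∧ κ < #G ∧ #(MulAut G) = #G ∧ #(MulAut G) < 2 ^ #G :=
  exists_small_aut κ hκ μ hμ

end Pool.Agent.Results.MP_cb6149_al.SmallAut
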